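import Mathlib
import Pool.Agent.H29.ConnDP

namespace Pool.Agent.Results.MP_662923_co.Counter

open SimpleGraph Pool.Agent.H29.ConnDP Classical

/-- `C'(G)`: connected spanning subgraphs of `G`, recorded by their edge sets. -/
def CS {W : Type} (G : SimpleGraph W) : Set (Finset (Sym2 W)) :=
  {s | (↑s : Set (Sym2 W)) ⊆ G.edgeSet ∧ (fromEdgeSet (↑s : Set (Sym2 W))).Connected}

def Conn (b : Finset (Sym2 V)) : Prop := (fromEdgeSet (↑b : Set (Sym2 V))).Connected

def Rel (σ : List ℕ) (b : Finset (Sym2 V)) : Prop :=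
  σ.length = 16 ∧
    ∀ u v, lab σ u = lab σ v ↔ (fromEdgeSet (↑b : Set (Sym2 V))).Reachable u v

def mk (e : Ed) : Sym2 V := s(e.1, e.2)

lemma rel_merge {σ : List ℕ} {b : Finset (Sym2 V)} (h : Rel σ b) (e : Ed) :
    Rel (merge σ e) (insert (mk e) b) := by
  obtain ⟨hl, h⟩ := h
  refine ⟨by rw [len_merge, hl], fun u v => ?_⟩
  have mono : fromEdgeSet (↑b : Set (Sym2 V)) ≤ fromEdgeSet ↑(insert (mk e) b) :=
    fromEdgeSet_mono (by simp [Set.subset_insert])
  have up : ∀ u v, lab σ u = lab σ v →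
      (fromEdgeSet (↑(insert (mk e) b) : Set (Sym2 V))).Reachable u v :=
    fun u v huv => ((h u v).1 huv).mono mono
  have hxy : (fromEdgeSet (↑(insert (mk e) b) : Set (Sym2 V))).Reachable e.1 e.2 := by
    by_cases he : e.1 = e.2
    · rw [he]
    · exact Adj.reachable (by rw [fromEdgeSet_adj]; exact ⟨by simp [mk], he⟩)
  have to1 : ∀ u, (lab σ u = lab σ e.1 ∨ lab σ u = lab σ e.2) →
      (fromEdgeSet (↑(insert (mk e) b) : Set (Sym2 V))).Reachable u e.1 := by
    rintro u (hu | hu)
    · exact up _ _ hu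
    · exact (up _ _ hu).trans hxy.symm
  have hmin : ∀ m, min (lab σ e.1) (lab σ e.2) = m → m = lab σ e.1 ∨ m = lab σ e.2 := by
    intro m hm
    rcases min_choice (lab σ e.1) (lab σ e.2) with h' | h'
    · exact Or.inl (hm ▸ h')
    · exact Or.inr (hm ▸ h')
  constructor
  · rw [lab_merge σ hl, lab_merge σ hl]
    unfold relab
    split_ifs with h1 h2 h2
    · exact fun _ => (to1 u h1).trans (to1 v h2).symm
    · exact fun hm => absurd (hmin _ hm) h2
    · exact fun hm => absurd (hmin _ hm.symm) h1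
    · exact up u v
  · rintro ⟨w⟩
    induction w with
    | nil => rfl
    | @cons a c d hac _ ih =>
      refine Eq.trans ?_ ih
      rw [fromEdgeSet_adj] at hac
      obtain ⟨h1, h2⟩ := hac
      rw [lab_merge σ hl, lab_merge σ hl]
      rw [Finset.coe_insert, Set.mem_insert_iff] at h1
      rcases h1 with h1 | h1
      · unfold mk at h1
        rw [Sym2.eq_iff] at h1
        rcases h1 with ⟨rfl, rfl⟩ | ⟨rfl, rfl⟩ <;> simp [relab]
      · rw [(h a c).2 (Adj.reachable (by rw [fromEdgeSet_adj]; exact ⟨h1, h2⟩))]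

lemma rel_conn {σ : List ℕ} {b : Finset (Sym2 V)} (h : Rel σ b) : allEq σ = true ↔ Conn b := by
  simp only [allEq, List.all_eq_true, beq_iff_eq, Conn, connected_iff, Preconnected]
  constructor
  · intro h1
    refine ⟨fun u v => (h.2 u v).1 ?_, inferInstance⟩
    rw [h1 u (List.mem_finRange u), h1 v (List.mem_finRange v)]
  · intro h1 v _
    exact (h.2 v 0).2 (h1.1 v 0)

def toF (es : List Ed) : Finset (Sym2 V) := (es.map mk).toFinset

noncomputable def Fam (es : List Ed) (b : Finset (Sym2 V)) (k : ℕ) : Finset (Finset (Sym2 V)) :=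
  (toF es).powerset.filter fun t => t.card = k ∧ Conn (b ∪ t)

lemma fam_card (es : List Ed) (hn : (es.map mk).Nodup) (σ : List ℕ) (b : Finset (Sym2 V))
    (h : Rel σ b) (k : ℕ) : (Fam es b k).card = (cnt es σ).getD k 0 := by
  induction es generalizing σ b k with
  | nil =>
    simp only [Fam, toF, List.map_nil, List.toFinset_nil, Finset.powerset_empty,
      Finset.card_filter, Finset.sum_singleton, Finset.card_empty, Finset.union_empty, cnt,
      ← rel_conn h]
    cases k <;> cases allEq σ <;> simp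
  | cons e es ih =>
    rw [List.map_cons, List.nodup_cons] at hn
    have he : mk e ∉ toF es := by simpa [toF] using hn.1
    have hF : toF (e :: es) = insert (mk e) (toF es) := by simp [toF]
    rw [cnt, addL_getD, ← ih hn.2 σ b h k, Fam, Fam, Finset.card_filter, Finset.card_filter, hF,
      Finset.sum_powerset_insert he]
    congr 1
    have hc : ∀ t ∈ (toF es).powerset, (insert (mk e) t).card = t.card + 1 := fun t ht =>
      Finset.card_insert_of_notMem fun hm => he (Finset.mem_powerset.1 ht hm)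
    cases k with
    | zero =>
      rw [List.getD_cons_zero]
      refine Finset.sum_eq_zero fun t ht => ?_
      rw [hc t ht]
      simp
    | succ k =>
      rw [List.getD_cons_succ, ← ih hn.2 _ _ (rel_merge h e) k, Fam, Finset.card_filter]
      refine Finset.sum_congr rfl fun t ht => ?_
      rw [hc t ht, Finset.union_insert, Finset.insert_union]
      simp

lemma lab_s0 : ∀ u v : V, lab s0 u = lab s0 v → u = v := by decide

lemma rel0 : Rel s0 ∅ := by
  refine ⟨rfl, fun u v => ?_⟩
  rw [Finset.coe_empty, fromEdgeSet_empty, reachable_bot]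
  exact ⟨lab_s0 u v, fun h => by rw [h]⟩

def p0 : Ed := (0, 15)

/-- The graph: a `K4`, four diamonds and one edge, arranged in a ring (16 vertices, 27 edges). -/
def G0 : SimpleGraph V := fromEdgeSet ↑(toF (p0 :: es0))

lemma nodupE : ((p0 :: es0).map mk).Nodup := by decide +kernel

lemma nodiag : ∀ x ∈ toF (p0 :: es0), ¬ x.IsDiag := by decide +kernel

lemma edge_G0 : G0.edgeSet = ↑(toF (p0 :: es0)) := by
  rw [G0, edgeSet_fromEdgeSet]
  ext x
  simp only [Set.mem_diff, Finset.mem_coe, Sym2.mem_diagSet]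
  exact ⟨fun h => h.1, fun h => ⟨h, nodiag x h⟩⟩

lemma mem_CS (s : Finset (Sym2 V)) : s ∈ CS G0 ↔ s ⊆ toF (p0 :: es0) ∧ Conn s := by
  simp only [CS, Set.mem_setOf_eq, edge_G0, Finset.coe_subset, Conn]

lemma bound_all : ∀ x ∈ addL LA (0 :: LB), x ≤ 1852416 := by decide +kernel

lemma cons_getD (p q : List ℕ) (h : ∀ k, p.getD k 0 = q.getD k 0) (k : ℕ) :
    (0 :: p).getD k 0 = (0 :: q).getD k 0 := by
  cases k with
  | zero => rfl
  | succ k => rw [List.getD_cons_succ, List.getD_cons_succ, h]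

lemma cntB' (k : ℕ) : (cnt es0 (merge s0 p0)).getD k 0 = LB.getD k 0 := by
  unfold p0
  exact cntB k

lemma level_le (k : ℕ) : {s ∈ CS G0 | s.card = k}.ncard ≤ 1852416 := by
  have e1 : {s ∈ CS G0 | s.card = k} = ↑(Fam (p0 :: es0) ∅ k) := by
    ext s
    simp only [Set.mem_setOf_eq, mem_CS, Fam, Finset.coe_filter, Finset.mem_powerset,
      Finset.empty_union]
    tauto
  rw [e1, Set.ncard_coe_finset, fam_card _ nodupE s0 ∅ rel0, cnt, addL_getD, cntA]
  rw [cons_getD _ _ cntB' k, ← addL_getD]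
  by_cases hk : k < (addL LA (0 :: LB)).length
  · rw [List.getD_eq_getElem _ _ hk]
    exact bound_all _ (List.getElem_mem hk)
  · rw [List.getD_eq_default _ _ (by omega)]
    omega

noncomputable def A0 : Finset (Finset (Sym2 V)) :=
  Fam es0 ∅ 18 ∪ (Fam es0 (insert (mk p0) ∅) 16).image (insert (mk p0))

lemma nodup0 : (es0.map mk).Nodup := (List.nodup_cons.1 nodupE).2

lemma p_notMem : mk p0 ∉ toF es0 := by
  have := (List.nodup_cons.1 nodupE).1
  simpa [toF] using this

lemma hF0 : toF (p0 :: es0) = insert (mk p0) (toF es0) := by simp [toF]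

lemma mem_A0 {s : Finset (Sym2 V)} (hs : s ∈ A0) :
    s ∈ CS G0 ∧ ((mk p0 ∉ s ∧ s.card = 18) ∨ (mk p0 ∈ s ∧ s.card = 17)) := by
  rw [mem_CS, hF0]
  rcases Finset.mem_union.1 hs with h | h
  · simp only [Fam, Finset.mem_filter, Finset.mem_powerset, Finset.empty_union] at h
    exact ⟨⟨h.1.trans (Finset.subset_insert _ _), h.2.2⟩,
      Or.inl ⟨fun hm => p_notMem (h.1 hm), h.2.1⟩⟩
  · obtain ⟨t, ht, rfl⟩ := Finset.mem_image.1 h
    simp only [Fam, Finset.mem_filter, Finset.mem_powerset, Finset.insert_union,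
      Finset.empty_union] at ht
    refine ⟨⟨Finset.insert_subset_insert _ ht.1, ht.2.2⟩, Or.inr ⟨Finset.mem_insert_self _ _, ?_⟩⟩
    rw [Finset.card_insert_of_notMem fun hm => p_notMem (ht.1 hm), ht.2.1]

lemma card_A0 : A0.card = 1853568 := by
  rw [A0, Finset.card_union_of_disjoint, Finset.card_image_of_injOn,
    fam_card _ nodup0 s0 ∅ rel0, fam_card _ nodup0 _ _ (rel_merge rel0 p0), cntA]
  · rw [cntB']
    rfl
  · intro t ht t' ht' e
    simp only [Fam, Finset.coe_filter, Finset.mem_powerset, Set.mem_setOf_eq] at ht ht'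
    have h1 : mk p0 ∉ t := fun hm => p_notMem (ht.1 hm)
    have h2 : mk p0 ∉ t' := fun hm => p_notMem (ht'.1 hm)
    rw [← Finset.erase_insert h1, ← Finset.erase_insert h2]
    exact congrArg (fun z => Finset.erase z (mk p0)) e
  · rw [Finset.disjoint_left]
    intro s h h'
    obtain ⟨t, -, rfl⟩ := Finset.mem_image.1 h'
    simp only [Fam, Finset.mem_filter, Finset.mem_powerset] at h
    exact p_notMem (h.1 (Finset.mem_insert_self _ _))

theorem result : ∃ (n : ℕ) (G : SimpleGraph (Fin n)), G.Connected ∧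
    ∃ A : Finset (Finset (Sym2 (Fin n))), (∀ s ∈ A, s ∈ CS G) ∧
      IsAntichain (· ⊆ ·) (↑A : Set (Finset (Sym2 (Fin n)))) ∧
      ∀ k : ℕ, {s ∈ CS G | s.card = k}.ncard < A.card := by
  refine ⟨16, G0, ?_, A0, fun s hs => (mem_A0 hs).1, ?_, fun k => ?_⟩
  · have hpos : 0 < A0.card := by rw [card_A0]; norm_num
    obtain ⟨s, hs⟩ := Finset.card_pos.1 hpos
    obtain ⟨h1, h2⟩ := (mem_CS s).1 (mem_A0 hs).1
    exact Connected.mono (fromEdgeSet_mono (Finset.coe_subset.2 h1)) h2
  · intro s hs t ht hne hst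
    have h1 := (mem_A0 hs).2
    have h2 := (mem_A0 ht).2
    have hlt : s.card < t.card := Finset.card_lt_card (lt_of_le_of_ne hst hne)
    rcases h1 with h1 | h1 <;> rcases h2 with h2 | h2
    · omega
    · omega
    · exact h2.1 (hst h1.1)
    · omega
  · rw [card_A0]
    exact lt_of_le_of_lt (level_le k) (by norm_num)

end Pool.Agent.Results.MP_662923_co.Counter
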